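import Pool.Agent.R650.Box

/-!
# MP_625351_al: congruence box spaces of `ℤ ≀ ℤ` with and without property `D_α`

Q1. There is a congruence box space of `G = ℤ ≀ ℤ` with property `D_{1/2}`: take for `I_k` the kernel
of `A → ℤ/3^(k+2)`, `X ↦ u`, where `u` is a `3`-adic integer that is transcendental over `ℚ` and
congruent to `4` modulo `9`.

Q2. There is a congruence box space of `G` without property `D_α` for every `α > 0`: take for
`I_k` the ideal generated by `2^k` and `X^(2^k) - 1` (defined in the proof as the kernel of the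
reduction `A → (ℤ/2^k)[ℤ/2^k]`).

The definitions are in `Pool/Agent/R650/BoxDefs.lean`.
-/

set_option autoImplicit false

namespace Pool.Agent.Results.MP_625351_al.BoxSpaces

open Pool.Agent.R650.Box

/-- Some congruence box space of `ℤ ≀ ℤ` has property `D_{1/2}`, and some congruence box space
fails property `D_α` for every `α ∈ (0, 1]` (for all finite generating sets). -/
theorem result :
    (∃ I : ℕ → Ideal (LaurentPolynomial ℤ), IsCongruenceFiltration I ∧
      ∀ S : Finset G, Subgroup.closure (S : Set G) = ⊤ → HasD (S : Set G) I (1 / 2)) ∧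
    (∃ I : ℕ → Ideal (LaurentPolynomial ℤ), IsCongruenceFiltration I ∧
      ∀ S : Finset G, Subgroup.closure (S : Set G) = ⊤ →
        ∀ α : ℝ, 0 < α → α ≤ 1 → ¬ HasD (S : Set G) I α) := by
  obtain ⟨u, hu, hu'⟩ := exists_unit
  exact ⟨⟨I1 u, filtration1 u hu', fun S hS => hasD_half u hu S hS⟩,
    ⟨I2, filtration2, fun S hS α hα _ => not_hasD S hS α hα⟩⟩

end Pool.Agent.Results.MP_625351_al.BoxSpaces
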